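import Pool.Agent.X145.BB.NN

/-!
Minimum degree `k` at its hitting time with a budget of `(k/2 + δ) n` edges: for every `k` Builder
has strategies whose success probability stays bounded away from zero, although `o_k ≥ k/2 + 1/4`.
-/

namespace Pool.Agent.Results.MP_59e60d_pr.CheapStrategies

open Filter Topology Finset Pool.Agent.X145.BB

set_option autoImplicit false

/-- `S` is a (deterministic) `(τ_k, b)`-strategy: up to the hitting time `τ_k` it never holds more
than `b` edges. -/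
def IsStrategy {n : ℕ} (k b : ℕ) (S : Rule n) : Prop :=
  ∀ σ : Ordering n, ∀ t ≤ tau k σ, (bought S σ t).card ≤ b

/-- Builder's graph has minimum degree at least `k` at time `τ_k`. -/
def Succeeds {n : ℕ} (k : ℕ) (S : Rule n) (σ : Ordering n) : Prop :=
  ∀ v : Fin n, k ≤ deg (bought S σ (tau k σ)) v

/-- The statement of Q1 for `k`, with `o` in the place of `o_k` (for deterministic strategies
only). -/
def Q1 (k : ℕ) (o : ℝ) : Prop :=
  ∀ ε > 0, ∀ b : ℕ → ℕ, (∀ n, (b n : ℝ) ≤ (o - ε) * n) →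
    ∀ S : (n : ℕ) → Rule n, (∀ n, IsStrategy k (b n) (S n)) →
      Tendsto (fun n => prob n (Succeeds k (S n))) atTop (𝓝 0)

/-- mean over the uniformly random ordering -/
noncomputable def mean (n : ℕ) (f : Ordering n → ℝ) : ℝ :=
  (∑ σ : Ordering n, f σ) / Fintype.card (Ordering n)

/-- For every `k ≥ 1`: (1) for every `δ > 0` there are `(τ_k, b)`-strategies with
`b ≤ (k/2 + δ) n` whose success probability is at least a constant `c > 0` for all large `n`;
(2) the mean number of edges of the `k`-nearest neighbour graph is at least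
`(k/2 + 1/4) n - k`, and every constant `o_k` is at least `k/2 + 1/4`;
(3) Q1 is false. -/
theorem result (k : ℕ) (hk : 1 ≤ k) :
    (∀ δ : ℝ, 0 < δ → ∃ c > 0, ∃ b : ℕ → ℕ, (∀ n, (b n : ℝ) ≤ ((k : ℝ) / 2 + δ) * n) ∧
      ∃ S : (n : ℕ) → Rule n, (∀ n, IsStrategy k (b n) (S n)) ∧
        ∀ᶠ n : ℕ in atTop, c ≤ prob n (Succeeds k (S n))) ∧
    (∀ n : ℕ, k < n → 2 ≤ n →
      ((k : ℝ) / 2 + 1 / 4) * n - k ≤ mean n (fun σ => ((nearest k σ).card : ℝ))) ∧
    (∀ o : ℝ, IsNearestConstant k o → (k : ℝ) / 2 + 1 / 4 ≤ o ∧ ¬ Q1 k o) := by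
  have h1 : ∀ δ : ℝ, 0 < δ → ∃ c > 0, ∃ b : ℕ → ℕ, (∀ n, (b n : ℝ) ≤ ((k : ℝ) / 2 + δ) * n) ∧
      ∃ S : (n : ℕ) → Rule n, (∀ n, IsStrategy k (b n) (S n)) ∧
        ∀ᶠ n : ℕ in atTop, c ≤ prob n (Succeeds k (S n)) := by
    intro δ hδ
    obtain ⟨c, hc, b, hb, S, hS, h⟩ := cheap_strategies k hk δ hδ
    exact ⟨c, hc, b, hb, S, fun n σ t _ => hS n σ t, h⟩
  refine ⟨h1, ?_, ?_⟩
  · intro n hkn hn
    have h2 := sum_nearest (n := n) k hk hn hkn
    have hnR : (2 : ℝ) ≤ n := by exact_mod_cast hn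
    have hkR : (1 : ℝ) ≤ k := by exact_mod_cast hk
    unfold mean
    rw [le_div_iff₀ (ord_pos n)]
    refine le_trans (mul_le_mul_of_nonneg_right ?_ (ord_pos n).le) h2
    have h3 : (n : ℝ) * (n - 1) / 2 * ((2 * k - 1) / (2 * n - 3)) ≤ (2 * k - 1) * (n / 4 + 1 / 2) := by
      rw [← mul_div_assoc, div_le_iff₀ (by linarith)]
      have h4 : (n : ℝ) * (n - 1) / 2 ≤ (n / 4 + 1 / 2) * (2 * n - 3) := by nlinarith
      have h5 := mul_le_mul_of_nonneg_left h4 (show (0:ℝ) ≤ 2 * k - 1 by linarith)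
      linarith
    linarith
  · intro o ho
    have h2 := constant_ge k hk o ho
    refine ⟨h2, ?_⟩
    intro hQ
    obtain ⟨c, hc, b, hb, S, hS, h⟩ := h1 (1 / 8) (by norm_num)
    have h3 := hQ (1 / 8) (by norm_num) b (by
      intro n
      refine (hb n).trans (mul_le_mul_of_nonneg_right ?_ (Nat.cast_nonneg n))
      linarith) S hS
    have h4 := h3.eventually (gt_mem_nhds hc)
    obtain ⟨n, hn1, hn2⟩ := (h.and h4).exists
    linarith

end Pool.Agent.Results.MP_59e60d_pr.CheapStrategies
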